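import Mathlib
import Pool.Agent.Q267.CN.Trig

set_option autoImplicit false

namespace Pool.Agent.Results.MP_8f4482_nt.SignsAtTwelfthRoots

open Finset

/-- `S_p(x) = ∏_{k=1}^{(p-1)/2} (x - e^{2π i k²/p})` -/
noncomputable def S (p : ℕ) (x : ℂ) : ℂ :=
  ∏ k ∈ Icc 1 ((p - 1) / 2), (x - Complex.exp (2 * Real.pi * Complex.I * (k : ℂ) ^ 2 / p))

/-- `N_p`, the number of `k` with `1 ≤ k < p/12` and `(k/p) = 1` -/
def N (p : ℕ) [Fact p.Prime] : ℕ :=
  ((Icc 1 p).filter (fun k => 12 * k < p ∧ legendreSym p k = 1)).card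

/-- `T_s(p)` where `h` stands for the class number `h(-p)` -/
noncomputable def T (h : ℕ) (s : ℤ) (p : ℕ) [Fact p.Prime] : ℂ :=
  (-1) ^ (h / 2 + N p) * Complex.exp (2 * Real.pi * Complex.I * s * (5 * ((p : ℂ) - 1) / 48)) *
    S p (Complex.exp (2 * Real.pi * Complex.I * s / 12))

/-- the number `z` is real and positive -/
def Pos (z : ℂ) : Prop := z.im = 0 ∧ 0 < z.re

/-- the number `z` is real and negative -/
def Neg (z : ℂ) : Prop := z.im = 0 ∧ z.re < 0

lemma pos_of {z : ℂ} {e : ℕ} {P : ℝ} (hP : 0 < P) (he : e % 2 = 0) (h : z = (-1) ^ e * P) :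
    Pos z := by
  rw [h, Pool.Agent.Q267.CN.neg_one_pow_congr (b := 0) (by omega), pow_zero, one_mul]
  exact ⟨Complex.ofReal_im P, by rw [Complex.ofReal_re]; exact hP⟩

lemma neg_of {z : ℂ} {e : ℕ} {P : ℝ} (hP : 0 < P) (he : e % 2 = 1) (h : z = (-1) ^ e * P) :
    Neg z := by
  rw [h, Pool.Agent.Q267.CN.neg_one_pow_congr (b := 1) (by omega), pow_one]
  constructor
  · simp
  · simpa using hP

theorem T_plus {p : ℕ} [Fact p.Prime] (hp : 3 < p) (h : ℕ) {t n : ℕ} (hn : p = 2 * n + 1)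
    (ht : (∑ r ∈ Pool.Agent.Q267.CN.QR p, r) = p * t) :
    ∃ P : ℝ, 0 < P ∧ T h 1 p = (-1) ^ (h / 2 + t) * P := by
  obtain ⟨P, hP, hv⟩ := Pool.Agent.Q267.CN.fin_plus hp ht
  refine ⟨P, hP, ?_⟩
  have hnn : (p - 1) / 2 = n := by omega
  rw [hnn] at hv
  unfold Pool.Agent.Q267.CN.Sp at hv
  have hN : Pool.Agent.Q267.CN.Np p = N p := rfl
  unfold T S
  have e1 : (2 * Real.pi * Complex.I * ((1 : ℤ) : ℂ) / 12) = 2 * Real.pi * Complex.I / 12 := by
    push_cast
    ring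
  rw [e1, hv, hN]
  have e2 : Complex.exp (2 * Real.pi * Complex.I * ((1 : ℤ) : ℂ) * (5 * ((p : ℂ) - 1) / 48)) *
      Complex.exp ((n : ℂ) * (7 * Real.pi / 12) * Complex.I) = (-1) ^ n := by
    rw [← Complex.exp_add, ← Complex.exp_pi_mul_I, ← Complex.exp_nat_mul]
    congr 1
    rw [hn]
    push_cast
    ring
  calc _ = ((-1) ^ (h / 2 + N p) * (-1) ^ (n + N p + t) * P) * (Complex.exp
      (2 * Real.pi * Complex.I * ((1 : ℤ) : ℂ) * (5 * ((p : ℂ) - 1) / 48)) *
      Complex.exp ((n : ℂ) * (7 * Real.pi / 12) * Complex.I)) := by ring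
    _ = (-1) ^ (h / 2 + N p + (n + N p + t) + n) * P := by
      rw [e2]; ring
    _ = _ := by
      rw [Pool.Agent.Q267.CN.neg_one_pow_congr (b := h / 2 + t) (by omega)]

theorem T_minus {p : ℕ} [Fact p.Prime] (hp : 3 < p) (h : ℕ) {t n M : ℕ} (hn : p = 2 * n + 1)
    (ht : (∑ r ∈ Pool.Agent.Q267.CN.QR p, r) = p * t)
    (hM : ((Pool.Agent.Q267.CN.QR p).filter (fun r => ¬ 12 * r < 11 * p)).card = M) :
    ∃ P : ℝ, 0 < P ∧ T h (-1) p = (-1) ^ (h / 2 + N p + n + M + t) * P := by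
  obtain ⟨P, hP, hv⟩ := Pool.Agent.Q267.CN.fin_minus hp ht
  refine ⟨P, hP, ?_⟩
  have hnn : (p - 1) / 2 = n := by omega
  rw [hnn, hM] at hv
  unfold Pool.Agent.Q267.CN.Sp at hv
  unfold T S
  have e1 : (2 * Real.pi * Complex.I * ((-1 : ℤ) : ℂ) / 12) =
      -(2 * Real.pi * Complex.I / 12) := by
    push_cast
    ring
  rw [e1, hv]
  have e2 : Complex.exp (2 * Real.pi * Complex.I * ((-1 : ℤ) : ℂ) * (5 * ((p : ℂ) - 1) / 48)) *
      Complex.exp ((n : ℂ) * (5 * Real.pi / 12) * Complex.I) = 1 := by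
    rw [← Complex.exp_add]
    have e3 : 2 * Real.pi * Complex.I * ((-1 : ℤ) : ℂ) * (5 * ((p : ℂ) - 1) / 48) +
        (n : ℂ) * (5 * Real.pi / 12) * Complex.I = 0 := by
      rw [hn]
      push_cast
      ring
    rw [e3, Complex.exp_zero]
  calc _ = ((-1) ^ (h / 2 + N p) * (-1) ^ (n + M + t) * P) * (Complex.exp
      (2 * Real.pi * Complex.I * ((-1 : ℤ) : ℂ) * (5 * ((p : ℂ) - 1) / 48)) *
      Complex.exp ((n : ℂ) * (5 * Real.pi / 12) * Complex.I)) := by ring
    _ = _ := by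
      rw [e2]; ring

/-- Q1 of the problem: let `p > 3` be a prime and let `K` be the imaginary quadratic field
`ℚ(√-p)` (any number field of degree 2 that contains a square root of `-p`). Then the signs of
`T_{+1}(p)`, `T_{-1}(p)` are as asserted. -/
theorem result (p : ℕ) [Fact p.Prime] (hp : 3 < p) (K : Type*) [Field K] [NumberField K]
    (hK : Module.finrank ℚ K = 2) (y : K) (hy : y ^ 2 = -(p : K)) :
    (p % 12 = 5 → Pos (T (NumberField.classNumber K) 1 p) ∧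
      Pos (T (NumberField.classNumber K) (-1) p)) ∧
    (p % 24 = 11 → Pos (T (NumberField.classNumber K) 1 p) ∧
      Neg (T (NumberField.classNumber K) (-1) p)) ∧
    (p % 24 = 23 → Neg (T (NumberField.classNumber K) 1 p) ∧
      Neg (T (NumberField.classNumber K) (-1) p)) := by
  obtain ⟨t, ht, hcase⟩ := Pool.Agent.Q267.CN.sum_QR hp hK y hy
  have hodd : p = 2 * ((p - 1) / 2) + 1 := by
    rcases (Fact.out : p.Prime).eq_two_or_odd with h | h <;> omega
  obtain ⟨P, hP, h1⟩ := T_plus hp (NumberField.classNumber K) hodd ht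
  obtain ⟨P', hP', h2⟩ := T_minus hp (NumberField.classNumber K) hodd ht rfl
  rcases hcase with ⟨h4, h5, h6⟩ | ⟨h4, h5⟩
  · have h7 := Pool.Agent.Q267.CN.card_high_one h4
    have hN : Pool.Agent.Q267.CN.Np p = N p := rfl
    rw [hN] at h7
    refine ⟨fun h => ⟨?_, ?_⟩, fun h => ?_, fun h => ?_⟩
    · exact pos_of hP (by omega) h1
    · exact pos_of hP' (by omega) h2
    · omega
    · omega
  · have h7 := Pool.Agent.Q267.CN.card_high_three h4
    have hN : Pool.Agent.Q267.CN.Np p = N p := rfl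
    rw [hN] at h7
    refine ⟨fun h => ?_, fun h => ⟨?_, ?_⟩, fun h => ⟨?_, ?_⟩⟩
    · omega
    · exact pos_of hP (by omega) h1
    · exact neg_of hP' (by omega) h2
    · exact neg_of hP (by omega) h1
    · exact neg_of hP' (by omega) h2

end Pool.Agent.Results.MP_8f4482_nt.SignsAtTwelfthRoots
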